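import Pool.Agent.Helper30_SkewP4.Forms

/-!
# SKEW, modules E1, E2, E3
-/

set_option autoImplicit false

namespace Pool.Agent.SkewP4.H42

open Pool.Agent.SkewP4

variable {Λ : Type} [Ring Λ] [Algebra ℂ Λ] (M : Model Λ)

theorem d_one : M.d 1 = 0 := by
  have := M.d_inc 1
  rwa [map_one] at this

theorem i_inc (f : S) : M.i (M.inc f) = 0 := M.i_zero 0 _ (M.inc_mem f)

theorem s_inc (f : S) : M.s (M.inc f) = M.inc f := by
  have := M.s_G 0 0 _ (M.inc_mem f)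
  simpa using this

theorem d_inc_mul (f : S) (a : Λ) : M.d (M.inc f * a) = M.inc f * M.d a := by
  rw [M.d_mul, M.d_inc, s_inc, zero_mul, zero_add]

theorem i_inc_mul (f : S) (a : Λ) : M.i (M.inc f * a) = M.inc f * M.i a := by
  rw [M.i_mul, i_inc, s_inc, zero_mul, zero_add]

theorem i_d (a : Λ) : M.i (M.d a) = -M.d (M.i a) := by
  rw [M.d_i, neg_neg]

variable {M}

theorem inc_mul_mem {p q : ℕ} (f : S) {a : Λ} (ha : a ∈ M.G p q) : M.inc f * a ∈ M.G p q := by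
  have := M.mul_mem 0 0 p q _ _ (M.inc_mem f) ha
  rwa [Nat.zero_add, Nat.zero_add] at this

theorem ih {al : Λ} (h1 : M.i al = 1) : M.i (M.d al) = 0 := by
  rw [i_d, h1, d_one, neg_zero]

theorem dalmul {al : Λ} (H : Λ) (dH : M.d H = 0) : M.d (al * H) = M.d al * H := by
  rw [M.d_mul, dH, mul_zero, add_zero]

theorem ialmul {al : Λ} (h1 : M.i al = 1) (H : Λ) (iH : M.i H = 0) : M.i (al * H) = H := by
  rw [M.i_mul, iH, h1, mul_zero, add_zero, one_mul]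

theorem e1 : E1Stmt := by
  intro Λ _ _ M c hc dc ic
  obtain ⟨z0, hz0, hdz0⟩ := M.exact 3 0 c (by omega) hc dc
  have h1 : M.d (M.i z0) = 0 := by rw [M.d_i, hdz0, ic, neg_zero]
  have h2 : M.i z0 ∈ M.Z 2 := M.closed_zero 2 _ (M.i_mem 2 0 _ hz0) h1
  obtain ⟨u, hu, hiu⟩ := M.koszul _ h2 (M.i_i z0)
  refine ⟨z0 - u, Submodule.sub_mem _ hz0 (M.Z_le 3 hu), ?_, ?_⟩
  · rw [map_sub, hiu, sub_self]
  · rw [map_sub, hdz0, M.d_Z 3 u hu, sub_zero]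

theorem e2 : E2Stmt := by
  intro Λ _ _ M al hal h1 c hc dc ic
  obtain ⟨m0, hm0, hdm0⟩ := M.exact 2 1 c (by omega) hc dc
  have hA : M.d (M.i m0) = 0 := by rw [M.d_i, hdm0, ic, neg_zero]
  obtain ⟨m1, hm1, hdm1⟩ := M.exact 1 0 (M.i m0) (by omega) (M.i_mem 1 1 _ hm0) hA
  have hB : M.d (M.i m1) = 0 := by rw [M.d_i, hdm1, M.i_i, neg_zero]
  obtain ⟨f, hf⟩ := M.Z_zero _ (M.closed_zero 0 _ (M.i_mem 0 0 _ hm1) hB)
  set m1' := m1 - M.inc f * al with hm1'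
  have g1 : m1' ∈ M.G 1 0 := Submodule.sub_mem _ hm1 (inc_mul_mem f hal)
  have i1 : M.i m1' = 0 := by rw [hm1', map_sub, i_inc_mul, h1, hf, mul_one, sub_self]
  have d1 : M.d m1' = M.i m0 - M.inc f * M.d al := by
    rw [hm1', map_sub, d_inc_mul, hdm1]
  have i2 : M.i (al * m1') = m1' := ialmul h1 _ i1
  have hah : al * M.d al ∈ M.G 2 1 := M.mul_mem 1 0 1 1 _ _ hal (M.d_mem 1 0 _ hal)
  have ham : M.d (al * m1') ∈ M.G 2 1 := M.d_mem 2 0 _ (M.mul_mem 1 0 1 0 _ _ hal g1)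
  refine ⟨f, m0 - M.inc f * (al * M.d al) + M.d (al * m1'), ?_, ?_, ?_⟩
  · exact Submodule.add_mem _ (Submodule.sub_mem _ hm0 (inc_mul_mem f hah)) ham
  · rw [map_add, map_sub, i_d, i2, d1, i_inc_mul, ialmul h1 _ (ih h1)]
    abel
  · rw [map_add, map_sub, M.d_d, d_inc_mul, dalmul _ (M.d_d al), hdm0]
    abel

theorem step {al : Λ} (hal : al ∈ M.G 1 0) (h1 : M.i al = 1) (f : S) (q : ℕ) (hq : q ≤ 2)
    (H : Λ) (hH : H ∈ M.G (q + 1) (q + 1)) (dH : M.d H = 0) (iH : M.i H = 0)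
    (x : Λ) (hx : x ∈ M.G (q + 2) (q + 1)) (ix : M.i x = 0)
    (e : M.inc f * (M.d al * H) = M.d x) :
    ∃ x' ∈ M.G (q + 1) q, M.i x' = 0 ∧ M.inc f * H = M.d x' := by
  have g1 : al * H ∈ M.G (q + 2) (q + 1) := by
    have := M.mul_mem 1 0 (q + 1) (q + 1) _ _ hal hH
    rwa [show 1 + (q + 1) = q + 2 by ring, show 0 + (q + 1) = q + 1 by ring] at this
  have g2 : M.inc f * (al * H) - x ∈ M.G (q + 2) (q + 1) :=
    Submodule.sub_mem _ (inc_mul_mem f g1) hx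
  have d2 : M.d (M.inc f * (al * H) - x) = 0 := by
    rw [map_sub, d_inc_mul, dalmul _ dH, e, sub_self]
  obtain ⟨b, hb, hdb⟩ := M.exact (q + 2) q _ hq g2 d2
  refine ⟨-M.i b, Submodule.neg_mem _ (M.i_mem (q + 1) q _ hb), ?_, ?_⟩
  · rw [map_neg, M.i_i, neg_zero]
  · have := congrArg M.i hdb
    rw [i_d, map_sub, ix, sub_zero, i_inc_mul, ialmul h1 _ iH] at this
    rw [map_neg, this]

theorem e3 : E3Stmt := by
  intro Λ _ _ M al hal h1 f x hx ix e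
  have hh : M.d al ∈ M.G 1 1 := M.d_mem 1 0 _ hal
  have ihh : M.i (M.d al) = 0 := ih h1
  have dhh : M.d (M.d al) = 0 := M.d_d al
  have h2 : M.d al * M.d al ∈ M.G 2 2 := M.mul_mem 1 1 1 1 _ _ hh hh
  have ih2 : M.i (M.d al * M.d al) = 0 := by rw [M.i_mul, ihh, zero_mul, mul_zero, add_zero]
  have dh2 : M.d (M.d al * M.d al) = 0 := by rw [M.d_mul, dhh, zero_mul, mul_zero, add_zero]
  have h3 : M.d al * (M.d al * M.d al) ∈ M.G 3 3 := M.mul_mem 1 1 2 2 _ _ hh h2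
  have ih3 : M.i (M.d al * (M.d al * M.d al)) = 0 := by
    rw [M.i_mul, ihh, ih2, zero_mul, mul_zero, add_zero]
  have dh3 : M.d (M.d al * (M.d al * M.d al)) = 0 := by
    rw [M.d_mul, dhh, dh2, zero_mul, mul_zero, add_zero]
  rw [show M.d al * M.d al * (M.d al * M.d al) = M.d al * (M.d al * (M.d al * M.d al)) by
    noncomm_ring] at e
  obtain ⟨x3, hx3, ix3, e3⟩ := step hal h1 f 2 le_rfl _ h3 dh3 ih3 x hx ix e
  obtain ⟨x2, hx2, ix2, e2⟩ := step hal h1 f 1 (by omega) _ h2 dh2 ih2 x3 hx3 ix3 e3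
  obtain ⟨x1, hx1, ix1, e1⟩ := step hal h1 f 0 (by omega) _ hh dhh ihh x2 hx2 ix2 e2
  have g0 : M.inc f * al - x1 ∈ M.G 1 0 := Submodule.sub_mem _ (inc_mul_mem f hal) hx1
  have d0 : M.d (M.inc f * al - x1) = 0 := by rw [map_sub, d_inc_mul, e1, sub_self]
  have i0 : M.i (M.inc f * al - x1) = M.inc f := by
    rw [map_sub, i_inc_mul, h1, ix1, mul_one, sub_zero]
  exact M.nonunit f _ (M.closed_zero 1 _ g0 d0) i0

end Pool.Agent.SkewP4.H42
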